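import Pool.Agent.L0h11.Gj

/-!
# The analytic Tate conjecture for products of diagonal hypersurfaces over the function fields of
geometrically integral varieties over `ℚ`

Let `K` be a finitely generated field of characteristic zero in which `ℚ` is algebraically closed, of
transcendence degree `n` over `ℚ`; so `dim_a (K) = n + 1`. These are the function fields of the
geometrically integral varieties over `ℚ`, for instance `ℚ` itself, `ℚ(t_1, ..., t_n)` or the function
field of any curve of any genus. Let `R` be any finitely generated ring with the field of fractions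
`K`. Let `X` be a product of diagonal hypersurfaces `X_j` over `K` of arbitrary degrees `m_j` and
dimensions `N_j - 2`, with arbitrary coefficients, which may be taken in `R` (`DiagK`). Let `U` be an open
subscheme `N₁ ≠ 0` of `Spec R` such that the fibres over `U` are smooth. The theorem computes, for every
`i`, the order of the pole of the L-function of `H ^ (2 * i) (X)` at `s = i + n + 1 = i + dim_a (K)`: it is
the number `X.rho i` of the Galois orbits of the eigenlines of `H ^ (2 * i) (X)(i)` with trivial Galois
action. Those that belong to a set `J` of factors with at most four coordinates, or with six coordinates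
if the level `M` is not a multiple of `110`, or whose level is a `GoodDegree` (for instance all prime
factors are in `{2, 3, 5}`) or a `PoleDegree` are algebraic. So the order of the pole is the rank of the
group `A ^ i (X)` for all `i` and all products of diagonal hypersurfaces with such degrees, and for all
diagonal surfaces and for all diagonal fourfolds of degree not divisible by `110`.

The proof needs, besides Hecke L-functions, the following theorem on character sums
(`Pool.Agent.L0h11.tw_landau`): for every finitely generated field `K` of characteristic zero and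
transcendence degree `n` and every `h ∈ K ^ *`, either `h` is an algebraic number times an `M`-th power,
or the sum of `χ(h)`, `χ` of order `M`, over the points of a model with values in the field with `q`
elements is `O(q ^ (n - 1 / 2))`.
-/

namespace Pool.Agent.Results.MP_223b32_ag.DiagonalOverFunctionFields

open Pool.Agent.L0h11 Filter Topology
open Pool.Agent.H916R2 (GoodDegree)
open Pool.Agent.Results.MP_058a58_ag.DiagonalPole (PoleDegree)

theorem result {R : Type} [CommRing R] [IsDomain R] [CharZero R] [Algebra.FiniteType ℤ R] (n : ℕ)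
    -- the transcendence degree of `K` is `n` and `ℚ` is algebraically closed in `K`
    (hn : Algebra.trdeg ℚ (FractionRing R) = n)
    (hK : ∀ z : FractionRing R, IsAlgebraic ℚ z → ∃ q : ℚ, (q : FractionRing R) = z)
    (X : DiagK R) (i : ℕ) (N₁ : R) (hN : X.IsModel N₁) :
    -- the Euler product converges for `re s > i + n + 1`
    (∀ y : MaximalSpectrum R, N₁ ∉ y.asIdeal → ∀ s : ℂ, (i : ℝ) < s.re →
      Summable fun l : ℕ => (X.trace i y (RG.pointNorm y ^ (l + 1)) : ℂ) *
        (RG.pointNorm y : ℂ) ^ (-(((l + 1 : ℕ) : ℂ) * s)) / ((l + 1 : ℕ) : ℂ)) ∧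
    (∀ s : ℂ, ((i + n + 1 : ℕ) : ℝ) < s.re → Multipliable
      fun y : {y : MaximalSpectrum R // N₁ ∉ y.asIdeal} => X.localFactor i y.1 s) ∧
    -- the order of the pole is `X.rho i`
    (∃ G : ℂ → ℂ, AnalyticAt ℂ G ((i + n + 1 : ℕ) : ℂ) ∧ G ((i + n + 1 : ℕ) : ℂ) ≠ 0 ∧
      ∀ᶠ s : ℂ in 𝓝 ((i + n + 1 : ℕ) : ℂ), ((i + n + 1 : ℕ) : ℝ) < s.re →
        X.LFunction i N₁ s * (s - ((i + n + 1 : ℕ) : ℂ)) ^ (X.rho i) = G s) ∧
    -- the lines with trivial Galois action are algebraic
    (∀ J : Finset (Fin X.r), X.mult J i ≠ 0 → ∀ M : ℕ, M ∣ X.lcm →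
      (∑ j ∈ J, X.N j ≤ 4 ∨ (∑ j ∈ J, X.N j = 6 ∧ ¬ 110 ∣ M) ∨ GoodDegree M ∨ PoleDegree M) →
      ∀ b : X.Idx J → ZMod M, X.IsLine J M b → RG.RationalOver M b (X.coeff J) →
        IsAlgebraicLine M b) := by
  obtain ⟨h1, h2, h3⟩ := X.pole hn hK i hN
  refine ⟨h1, h2, h3, fun J hJ M hM hcov b hb hR => ?_⟩
  have hcard : Fintype.card (X.Idx J) = ∑ j ∈ J, X.N j := by
    rw [Fintype.card_sigma, ← Finset.sum_coe_sort J]
    exact Finset.sum_congr rfl fun j _ => Fintype.card_fin _
  rw [← hcard] at hcov
  exact RG.algebraic_of_rationalOver hn hK X.lcm_pos hM (X.shape.even_of_mult hJ) hcov _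
    (fun x => X.c_ne _ _) b hb.1.1 ((X.shape.sys J).sum M b hb.1) hb.2 hR

end Pool.Agent.Results.MP_223b32_ag.DiagonalOverFunctionFields
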