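import Mathlib
import Pool.Agent.L0h11.I.Al

/-!
# The analytic Tate conjecture for the powers of generic hypersurface sections, over all finitely
generated fields

Let `k` be any finitely generated field, of any characteristic, the field of fractions of a finitely
generated domain `A`, and let `δ = dim_a(k)`. Let `X` and `Z` be smooth projective geometrically connected
varieties over `k`, given by homogeneous equations and the eigenvalues of Frobenius on their
cohomology (`FrobVariety`), `dim Z = n + 1 ≥ 2`. Let `Y` be the section of `Z` by the generic
hypersurface of degree `d`, a variety over the field `K` of rational functions over `k` in the `N`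
coefficients of the hypersurface, so that `dim_a(K) = N + δ`. Suppose that `r < 2 u` and `2 u ≤ d + 1` for
some `u` (so `r ≤ d` if `d` is odd, and `r < d` if `d` is even).

Theorem. For all `i` the Euler product `L(H^{2i}(X × Y^r), s)`, over the closed points of any nonempty
open subscheme `N₁ ≠ 0` of the spectrum of the ring `B` of polynomials over `A` in the coefficients over
which `X` and `Z` have good reduction, converges absolutely for `Re s > s₀ = i + dim_a(K)`, and there is a
function `G`, analytic and without zeros for `Re s > s₀ - 1 / (2 u)`, such that

  `L(H^{2i}(X × Y^r), s) = G(s) * ∏_{f ≤ r / 2, n f ≤ i} L_f(s - N - n f) ^ m_f`   for `Re s > s₀`.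

Here `L_f` is the L-function, over `k`, of the part of degree `2 i - 2 n f` of
`H(X) ⊗ H(Z)_amb ^ (r - 2 f)`, the Euler product over the closed points of the image of the open
subscheme in `Spec A`; it converges absolutely to the right of the point `i - n f + dim_a(k)`, the
point of the conjecture for this part. `H(Z)_amb` is the image of `H(Z)` in the cohomology of the
smooth hypersurface sections, and `m_f = binom(r, 2f) * 1 * 3 * ... * (2f - 1)`.

So if the orders `ρ_f` of the poles of the `L_f` at these points are defined, then the order of the
pole of `L(H^{2i}(X × Y^r), s)` at `s₀` is defined and equal to `∑ m_f ρ_f`. If the characteristic of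
`k` is zero and the cohomology of `X` and `Z` is of Tate type (for instance if they are cellular), then
`ρ_f` is the dimension of the part of degree `2 i - 2 n f` of `H(X) ⊗ H(Z)_amb ^ (r - 2 f)`
(`tateRank`), for every finitely generated field `k`, without further hypotheses.

This is the prediction of the conjecture: by the theorems of Deligne and Beauville on the monodromy,
the Tate classes on `X × Y^r` over `K` are the products of Tate classes of `X × Z^(r - 2f)` over `k`
with `f` classes of diagonals in disjoint pairs of factors `Y` (made primitive), that is, with the `m_f`
perfect matchings of `2 f` of the `r` factors. So the conjecture for the variety `X × Y^r` over `K`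
follows from the conjecture for varieties over `k`, for instance, over finite fields `k`, from the
conjecture and the semisimplicity for the products `X × Z^(r - 2f)`. The theorem can be applied
again to `Y` instead of `Z` (complete intersections) and to the varieties over `K` instead of `k`.
At the points of the open subscheme where the fibre of `Y` is smooth, `sectionPoly` and `trace` are the
traces of the Frobenius; the open subscheme may be taken so small that all the fibres are smooth.

Neither the theorems of Deligne on the monodromy nor on the weights of sheaves on the parameter space
are used. The proof: the values of forms of degree `d` at `d + 1` points are independent, so that the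
first `d + 1` moments of the number of the points of the hypersurface sections over a finite field can
be computed, up to an error, as for independent random variables with values in the finite field.
The even moment of order `2 u` bounds the contribution of the singular sections, which form
a set of relative measure `O(1 / q)`, to the moments of order at most `r`.
-/

set_option autoImplicit false

namespace Pool.Agent.Results.MP_223b32_ag.GenericSectionPowers

open Pool.Agent.L0h11 Pool.Agent.L0h11.SectionPower

/-- **The L-functions of `X × Y^r`, `Y` the generic hypersurface section of `Z`**: absolute
convergence, the factorization, the order of the pole in terms of the orders over `k`, and the order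
if the cohomology of `X` and `Z` is of Tate type and the characteristic of `k` is zero. -/
theorem result {A : Type} [CommRing A] [IsDomain A] [Algebra.FiniteType ℤ A] {δ : ℕ}
    (hδ : IsArithmeticDim A δ) (T : SectionPower A) (i : ℕ) {N₁ : T.B} (hN : T.IsModel N₁) :
    (∀ s : ℂ, T.edge δ i < s.re → Converges (T.trace i) (T.Upper N₁) s) ∧
    (∀ f ∈ T.levels i, ∀ s : ℂ, T.baseEdge δ i f < s.re →
      Converges (T.baseTrace i f) (T.Lower N₁) s) ∧
    T.Factorizes δ i N₁ ∧
    (∀ ρ : ℕ → ℤ, (∀ f ∈ T.levels i, HasPoleOrder (T.baseLFunction i f N₁) (T.baseEdge δ i f) (ρ f)) →
      HasPoleOrder (T.LFunction i N₁) (T.edge δ i) (∑ f ∈ T.levels i, (T.mult f : ℤ) * ρ f)) ∧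
    (CharZero A → T.X.IsTateType → T.Z.IsTateType →
      HasPoleOrder (T.LFunction i N₁) (T.edge δ i)
        (∑ f ∈ T.levels i, (T.mult f : ℤ) * T.tateRank i f)) :=
  ⟨(main hδ T i hN).1, (main hδ T i hN).2.1, (main hδ T i hN).2.2.1, (main hδ T i hN).2.2.2,
    tate_order hδ T i hN⟩

end Pool.Agent.Results.MP_223b32_ag.GenericSectionPowers
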