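import Pool.Agent.L0h11.Gj

/-!
# The analytic Tate conjecture for the hypersurfaces given by invertible polynomials over the function
fields of geometrically integral varieties over `ℚ`

Let `K` be a finitely generated field of characteristic zero in which `ℚ` is algebraically closed, of
transcendence degree `n` over `ℚ`; so `dim_a (K) = n + 1`. These are the function fields of the
geometrically integral varieties over `ℚ`. Let `R` be any finitely generated ring with the field of
fractions `K`. `X` is a smooth hypersurface of even dimension `N - 2` and degree `m ≥ 3` over `K` given by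
an invertible polynomial which is not diagonal (`InvertibleK`): a sum of chains and loops, in separate
variables, with arbitrary coefficients, which may be taken in `R` (for instance
`x_0 ^ (m - 1) * x_1 + ... + x_(N-1) ^ (m - 1) * x_0 = 0` and its transcendental twists). Let `U` be an open
subscheme `N₁ ≠ 0` of `Spec R` such that the fibres over `U` are smooth. The theorem computes the order
of the pole of the L-function of `H ^ (N - 2) (X)` at `s = N / 2 + n = (N - 2) / 2 + dim_a (K)`: it is the
number `X.rho` of the Galois orbits of lines in `H ^ (N - 2) (X)((N - 2) / 2)` with trivial Galois action.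
The lines with empty support (`2 ^ a` of them for `a` loops if all blocks have even length, otherwise
none) are spanned by the classes of linear subspaces of `X`. The others with trivial Galois action are
algebraic if the support `J` has at most four elements, or if it has six elements and the level `M` is
not a multiple of `110`, or if `M` is a `GoodDegree` or a `PoleDegree`: over the algebraic closure `X`
contains cones over the hypersurface `X_J` in the variables of `J`, which is dominated by a Fermat
variety, and the line of the Fermat variety is algebraic. So the order of the pole is the rank of the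
group `A ^ (N / 2 - 1) (X)` for all these surfaces (`N = 4`), for all these fourfolds with `¬ 110 ∣ X.D`
(`N = 6`), and in all dimensions if the levels of the lines are such degrees.
-/

namespace Pool.Agent.Results.MP_223b32_ag.InvertibleOverFunctionFields

open Pool.Agent.L0h11 Filter Topology
open Pool.Agent.H916R2 (GoodDegree)
open Pool.Agent.Results.MP_058a58_ag.DiagonalPole (PoleDegree)

theorem result {R : Type} [CommRing R] [IsDomain R] [CharZero R] [Algebra.FiniteType ℤ R] (n : ℕ)
    -- the transcendence degree of `K` is `n` and `ℚ` is algebraically closed in `K`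
    (hn : Algebra.trdeg ℚ (FractionRing R) = n)
    (hK : ∀ z : FractionRing R, IsAlgebraic ℚ z → ∃ q : ℚ, (q : FractionRing R) = z)
    (X : InvertibleK R) (N₁ : R) (hN : X.IsModel N₁) :
    -- the Euler product converges for `re s > N / 2 + n`
    (∀ y : MaximalSpectrum R, N₁ ∉ y.asIdeal →
      ∀ s : ℂ, ((X.N / 2 - 1 : ℕ) : ℝ) < s.re →
      Summable fun l : ℕ => (X.trace y (RG.pointNorm y ^ (l + 1)) : ℂ) *
        (RG.pointNorm y : ℂ) ^ (-(((l + 1 : ℕ) : ℂ) * s)) / ((l + 1 : ℕ) : ℂ)) ∧
    (∀ s : ℂ, ((X.N / 2 + n : ℕ) : ℝ) < s.re → Multipliable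
      fun y : {y : MaximalSpectrum R // N₁ ∉ y.asIdeal} => X.localFactor y.1 s) ∧
    -- the order of the pole is `X.rho`
    (∃ G : ℂ → ℂ, AnalyticAt ℂ G ((X.N / 2 + n : ℕ) : ℂ) ∧ G ((X.N / 2 + n : ℕ) : ℂ) ≠ 0 ∧
      ∀ᶠ s : ℂ in 𝓝 ((X.N / 2 + n : ℕ) : ℂ), ((X.N / 2 + n : ℕ) : ℝ) < s.re →
        X.LFunction N₁ s * (s - ((X.N / 2 + n : ℕ) : ℂ)) ^ X.rho = G s) ∧
    -- the lines with trivial Galois action are algebraic
    (∀ J : Finset X.Idx, X.mult J ≠ 0 → J.Nonempty → ∀ M : ℕ, M ∣ X.D →
      (J.card ≤ 4 ∨ (J.card = 6 ∧ ¬ 110 ∣ M) ∨ GoodDegree M ∨ PoleDegree M) →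
      ∀ b : {x // x ∈ J} → ZMod M, X.IsLine J M b → RG.RationalOver M b (X.coeff J) →
        IsAlgebraicLine M b) := by
  obtain ⟨h1, h2, h3⟩ := X.pole hn hK hN
  refine ⟨h1, h2, h3, fun J hJ hJ0 M hM hcov b hb hR => ?_⟩
  have hcard : Fintype.card {x // x ∈ J} = J.card := Fintype.card_coe J
  have hev : Even (Fintype.card {x // x ∈ J}) := by
    rw [hcard]
    exact X.shape.even_of_mult hJ
  rw [← hcard] at hcov
  exact RG.algebraic_of_rationalOver hn hK X.D_pos hM hev hcov _
    (fun x => X.c_ne _) b hb.1.1 ((X.shape.sys J).sum M b hb.1) hb.2 hR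

end Pool.Agent.Results.MP_223b32_ag.InvertibleOverFunctionFields
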