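import Pool.Agent.L0h11.Hm

/-!
# The analytic Tate conjecture for products of cyclic covers of the projective line with generic branch
points

Let `K` be the field of fractions of `R = R₀[t_1, ..., t_N]`, where `R₀` is a finitely generated domain
of characteristic zero, and suppose that `ℚ` is algebraically closed in `K`. Let `n` be the
transcendence degree of `K` over `ℚ`; so `dim_a (K) = n + 1`. Let `X` be a product of cyclic covers
`C_j : y ^ (m_j) = c_j * (x - t_1) ^ (b_(j,1)) * ... * (x - t_N) ^ (b_(j,N))` of the projective line, of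
arbitrary degrees `m_j`, with arbitrary nonzero constants `c_j ∈ R₀` and arbitrary exponents such that
the condition `wide` holds (`CyclicProduct`): for every nonempty set `D` of factors and all prime divisors
`p_j` of `m_j`, `j ∈ D`, there are more than `|D|` branch points `t_i` such that `b_(j,i)` is prime to
`p_j` for some `j ∈ D`. Examples are the powers `C ^ r` of the generic hyperelliptic curve
`C : y ^ 2 = c * (x - t_1) * ... * (x - t_N)` for all `r < N`, and products of such curves and their
twists.

Let `U` be an open subscheme `N₁ ≠ 0` of `Spec R` such that the fibres over `U` are smooth. The theorem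
computes, for every `i`, the order of the pole of the L-function of `H ^ (2 * i) (X)` at
`s = i + n + 1 = i + dim_a (K)`: it is the number `X.rho i` of the Galois orbits of the following data: a
set `J` of factors with a perfect matching `π`, a family of characters `κ_j ≠ 0` of the Galois groups
`μ_(m_j)` of the covers `C_j → ℙ¹`, `j ∈ J`, such that the eigenspaces of `κ_j` in `H ^ 1 (C_j)` and of
`κ_(π j)` in `H ^ 1 (C_(π j))` have opposite ramification, and such that the Galois group of `K(ζ_M)`,
`M` being the level of `κ`, acts trivially on the roots of the product of the `c_j ^ κ_j`; and powers of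
the classes of points on the other curves.

These data define algebraic classes: the fibre product of `C_j` and `C_(π j)` over the projective line has
components whose classes in `H ^ 2 (C_j × C_(π j))(1)` have a nonzero component in the tensor product of the
two eigenspaces.
-/

namespace Pool.Agent.Results.MP_223b32_ag.ProductsOfCyclicCovers

open Pool.Agent.L0h11 Filter Topology

theorem result {R₀ : Type} [CommRing R₀] [IsDomain R₀] [CharZero R₀] [Algebra.FiniteType ℤ R₀]
    (N n : ℕ)
    -- the transcendence degree of `K` is `n` and `ℚ` is algebraically closed in `K`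
    (hn : Algebra.trdeg ℚ (FractionRing (MvPolynomial (Fin N) R₀)) = n)
    (hK : ∀ z : FractionRing (MvPolynomial (Fin N) R₀), IsAlgebraic ℚ z →
      ∃ q : ℚ, (q : FractionRing (MvPolynomial (Fin N) R₀)) = z)
    (X : CyclicProduct R₀ N) (i : ℕ) (N₁ : MvPolynomial (Fin N) R₀) (hN : X.IsModel N₁) :
    -- the Euler product converges for `re s > i + n + 1`
    (∀ y : MaximalSpectrum (MvPolynomial (Fin N) R₀), N₁ ∉ y.asIdeal → ∀ s : ℂ, (i : ℝ) < s.re →
      Summable fun l : ℕ => (X.trace i y (RG.pointNorm y ^ (l + 1)) : ℂ) *
        (RG.pointNorm y : ℂ) ^ (-(((l + 1 : ℕ) : ℂ) * s)) / ((l + 1 : ℕ) : ℂ)) ∧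
    (∀ s : ℂ, ((i + n + 1 : ℕ) : ℝ) < s.re → Multipliable
      fun y : {y : MaximalSpectrum (MvPolynomial (Fin N) R₀) // N₁ ∉ y.asIdeal} =>
        X.localFactor i y.1 s) ∧
    -- the order of the pole is `X.rho i`
    (∃ G : ℂ → ℂ, AnalyticAt ℂ G ((i + n + 1 : ℕ) : ℂ) ∧ G ((i + n + 1 : ℕ) : ℂ) ≠ 0 ∧
      ∀ᶠ s : ℂ in 𝓝 ((i + n + 1 : ℕ) : ℂ), ((i + n + 1 : ℕ) : ℝ) < s.re →
        X.LFunction i N₁ s * (s - ((i + n + 1 : ℕ) : ℂ)) ^ (X.rho i) = G s) :=
  X.pole hn hK i hN

end Pool.Agent.Results.MP_223b32_ag.ProductsOfCyclicCovers
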